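import Mathlib
import Pool.Agent.Lib.helper22.DG
import Pool.Agent.H.MP_8a4945_al.F
import Pool.Agent.H.MP_8a4945_al.H

namespace Pool.Agent.Results.MP_8a4945_al.NotDG

open CategoryTheory Pool.Agent.Lib.DG Pool.Agent.H.MP_8a4945_al Pool.Agent.H.MP_f02a84_al

theorem result : ∃ (S : Type) (_ : Finite S) (R : Set (List S × List S)) (w : List S),
    R.Finite ∧ (∀ r ∈ R, r.1 ≠ [] ∧ r.2 ≠ [] ∧ r.swap ∉ R) ∧ w ≠ [] ∧
    ∀ (S' : Type) (R' : Set (List S' × List S')) (v : List S'), (∀ r ∈ R', r.1 ≠ [] ∧ r.2 ≠ []) →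
      IsEmpty (commutator (D R w) ≃* D R' v) := by
  refine ⟨Ltr, inferInstance, RR, [.a, .b], pres.1, pres.2, by simp, fun S' R' v h => ⟨fun e => ?_⟩⟩
  obtain ⟨ι, h1, h2, h3⟩ := (bad (sys (fun r i => ⟨(pres.2 r i).1, (pres.2 r i).2.1⟩) [.a, .b]) ⟨⟨_⟩, 𝟙 _⟩ rfl).congr (Γ' := D R' v) e
  exact (sys h v).main ⟨⟨_⟩, 𝟙 _⟩ ι h1 h2 h3

end Pool.Agent.Results.MP_8a4945_al.NotDG
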